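import Mathlib
import Pool.Agent.Lib.helper29.Rigid21

set_option autoImplicit false

namespace Pool.Agent.Results.MP_409c19_co.Rigid

open Pool.Agent.Lib.H29.Conf

/-- There is a rigid (21_4) configuration in the real projective plane: it has a geometric
realization, and any two geometric realizations of its combinatorial type are projectively
equivalent. -/
theorem result : ∃ I : Fin 21 → Fin 21 → Prop, IsRegular 4 I ∧ (∃ P L, Realizes I P L) ∧
    ∀ P L P' L', Realizes I P L → Realizes I P' L' → ProjEquiv P L P' L' :=
  ⟨inc, regular, exists_real, rigid⟩

end Pool.Agent.Results.MP_409c19_co.Rigid
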